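import Pool.Agent.Y560.TG.Stm

/-!
Project TG, job GEO: geometry of the classes of a linear order with a group action.
-/

set_option autoImplicit false

namespace Pool.Agent.Y406.TG

open Set
open Pool.Agent.H566P (ar R2 v2 a0 a1 lt ac co mk LA LL MB)
open Pool.Agent.Y560.TG

section abs

variable {Γ α : Type} [Group Γ] [LinearOrder α] [MulAction Γ α]

/-- same label over `y` -/
def SL (Γ : Type) {α : Type} [Group Γ] [LinearOrder α] [MulAction Γ α] (y v w : α) : Prop :=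
  ∀ γ : Γ, (γ • y < v ↔ γ • y < w) ∧ (γ • y = v ↔ γ • y = w)

/-- the class of `v` over `u` -/
def OB (Γ : Type) {α : Type} [Group Γ] [LinearOrder α] [MulAction Γ α] (u v : α) : Set α :=
  {x | ∃ γ δ : Γ, γ • v ≤ x ∧ x ≤ δ • v ∧ SL Γ u (γ • v) (δ • v)}

theorem SL.refl (y v : α) : SL Γ y v v := fun _ => ⟨Iff.rfl, Iff.rfl⟩
theorem SL.symm {y v w : α} (h : SL Γ y v w) : SL Γ y w v :=
  fun γ => ⟨(h γ).1.symm, (h γ).2.symm⟩
theorem SL.trans {y v w x : α} (h : SL Γ y v w) (h' : SL Γ y w x) : SL Γ y v x :=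
  fun γ => ⟨(h γ).1.trans (h' γ).1, (h γ).2.trans (h' γ).2⟩

/-- (0) -/
theorem SL.btw {y z w x : α} (h : SL Γ y z w) (h1 : z ≤ x) (h2 : x ≤ w) : SL Γ y z x := by
  intro γ
  refine ⟨⟨fun h3 => lt_of_lt_of_le h3 h1, fun h3 => (h γ).1.2 (lt_of_lt_of_le h3 h2)⟩,
    fun h3 => ?_, fun h3 => ?_⟩
  · have h4 := (h γ).2.1 h3
    exact le_antisymm (h3.le.trans h1) (h2.trans h4.ge)
  · by_cases h4 : γ • y < w
    · exact absurd ((h γ).1.2 h4) (not_lt.2 (h1.trans h3.ge))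
    · exact (h γ).2.2 (le_antisymm (h3.le.trans h2) (not_lt.1 h4))

theorem smul_lt (hm : ∀ (γ : Γ) (x y : α), x < y → γ • x < γ • y) (γ : Γ) {x y : α} :
    γ • x < γ • y ↔ x < y := by
  refine ⟨fun h => ?_, hm γ x y⟩
  have := hm γ⁻¹ _ _ h
  rwa [inv_smul_smul, inv_smul_smul] at this

theorem smul_le (hm : ∀ (γ : Γ) (x y : α), x < y → γ • x < γ • y) (γ : Γ) {x y : α} :
    γ • x ≤ γ • y ↔ x ≤ y := by
  rw [← not_lt, ← not_lt, smul_lt hm]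

/-- (11) -/
theorem SL.smul (hm : ∀ (γ : Γ) (x y : α), x < y → γ • x < γ • y) {y x z : α}
    (h : SL Γ y x z) (γ : Γ) : SL Γ y (γ • x) (γ • z) := by
  intro δ
  have e : δ • y = γ • ((γ⁻¹ * δ) • y) := by rw [smul_smul, mul_inv_cancel_left]
  rw [e, smul_lt hm, smul_lt hm, smul_left_cancel_iff, smul_left_cancel_iff]
  exact h _

theorem SL.of_smul (hm : ∀ (γ : Γ) (x y : α), x < y → γ • x < γ • y) {y x z : α} {γ : Γ}
    (h : SL Γ y (γ • x) (γ • z)) : SL Γ y x z := by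
  have := h.smul hm γ⁻¹
  rwa [inv_smul_smul, inv_smul_smul] at this

/-- (1) -/
theorem mem_OB_self (u v : α) : v ∈ OB Γ u v :=
  ⟨1, 1, by rw [one_smul], by rw [one_smul], SL.refl _ _⟩

/-- (3) -/
theorem smul_mem_OB (hm : ∀ (γ : Γ) (x y : α), x < y → γ • x < γ • y) {u v x : α}
    (h : x ∈ OB Γ u v) (γ : Γ) : γ • x ∈ OB Γ u v := by
  obtain ⟨c, d, h1, h2, h3⟩ := h
  refine ⟨γ * c, γ * d, ?_, ?_, ?_⟩
  · rw [mul_smul, smul_le hm]; exact h1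
  · rw [mul_smul, smul_le hm]; exact h2
  · rw [mul_smul, mul_smul]; exact h3.smul hm γ

theorem smul_mem_OB_iff (hm : ∀ (γ : Γ) (x y : α), x < y → γ • x < γ • y) {u v x : α} (γ : Γ) :
    γ • x ∈ OB Γ u v ↔ x ∈ OB Γ u v := by
  refine ⟨fun h => ?_, fun h => smul_mem_OB hm h γ⟩
  have := smul_mem_OB hm h γ⁻¹
  rwa [inv_smul_smul] at this

theorem OB_symm (hm : ∀ (γ : Γ) (x y : α), x < y → γ • x < γ • y) {u v x : α}
    (h : x ∈ OB Γ u v) : v ∈ OB Γ u x := by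
  obtain ⟨c, d, h1, h2, h3⟩ := h
  have h4 : SL Γ u (c • v) x := h3.btw h1 h2
  have h5 : SL Γ u x (d • v) := h4.symm.trans h3
  refine ⟨d⁻¹, c⁻¹, ?_, ?_, ?_⟩
  · rw [← smul_le hm d, smul_inv_smul]; exact h2
  · rw [← smul_le hm c, smul_inv_smul]; exact h1
  · have h6 := h4.smul hm c⁻¹
    have h7 := h5.smul hm d⁻¹
    rw [inv_smul_smul] at h6 h7
    exact h7.trans h6

theorem OB_trans (hm : ∀ (γ : Γ) (x y : α), x < y → γ • x < γ • y) {u v x y : α}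
    (h : x ∈ OB Γ u v) (h' : y ∈ OB Γ u x) : y ∈ OB Γ u v := by
  obtain ⟨c, d, h1, h2, h3⟩ := h
  obtain ⟨c', d', h1', h2', h3'⟩ := h'
  have h4 : SL Γ u (c • v) x := h3.btw h1 h2
  have h5 : SL Γ u x (d • v) := h4.symm.trans h3
  refine ⟨c' * c, d' * d, ?_, ?_, ?_⟩
  · rw [mul_smul]
    exact ((smul_le hm c').2 h1).trans h1'
  · rw [mul_smul]
    exact h2'.trans ((smul_le hm d').2 h2)
  · rw [mul_smul, mul_smul]
    exact ((h4.smul hm c').trans h3').trans (h5.smul hm d')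

/-- (2) -/
theorem OB_eq (hm : ∀ (γ : Γ) (x y : α), x < y → γ • x < γ • y) {u v x : α}
    (h : x ∈ OB Γ u v) : OB Γ u x = OB Γ u v := by
  ext y
  exact ⟨OB_trans hm h, OB_trans hm (OB_symm hm h)⟩

/-- (4) -/
theorem OB_btw {u v x w z : α} (hx : x ∈ OB Γ u v) (hw : w ∈ OB Γ u v)
    (h : SL Γ u x w) (h1 : x ≤ z) (h2 : z ≤ w) : z ∈ OB Γ u v := by
  obtain ⟨c, d, h3, h4, h5⟩ := hx
  obtain ⟨c', d', h3', h4', h5'⟩ := hw
  exact ⟨c, d', h3.trans h1, h2.trans h4', ((h5.btw h3 h4).trans h).trans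
    ((h5'.btw h3' h4').symm.trans h5')⟩

/-- (5) -/
theorem OB_out {u v x x' w : α} (hx : x ∈ OB Γ u v) (hx' : x' ∈ OB Γ u v)
    (h : SL Γ u x x') (hw : w ∉ OB Γ u v) : (x < w ↔ x' < w) ∧ (w < x ↔ w < x') := by
  refine ⟨⟨fun h1 => ?_, fun h1 => ?_⟩, fun h1 => ?_, fun h1 => ?_⟩
  · by_contra h2
    exact hw (OB_btw hx hx' h h1.le (not_lt.1 h2))
  · by_contra h2
    exact hw (OB_btw hx' hx h.symm h1.le (not_lt.1 h2))
  · by_contra h2
    exact hw (OB_btw hx' hx h.symm (not_lt.1 h2) h1.le)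
  · by_contra h2
    exact hw (OB_btw hx hx' h (not_lt.1 h2) h1.le)

/-- (9), first part -/
theorem mem_OB_iff {y z : α} : y ∈ OB Γ y z ↔ ∃ γ : Γ, γ • y = z := by
  constructor
  · rintro ⟨c, d, h1, h2, h3⟩
    have h4 := h3 1
    rw [one_smul] at h4
    rcases h2.lt_or_eq with h5 | h5
    · exact absurd (h4.1.2 h5) (not_lt.2 h1)
    · exact ⟨d⁻¹, by rw [h5, inv_smul_smul]⟩
  · rintro ⟨γ, rfl⟩
    exact ⟨γ⁻¹, γ⁻¹, by rw [inv_smul_smul], by rw [inv_smul_smul], SL.refl _ _⟩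

/-- (9), second part -/
theorem OB_orb {y v : α} (h : ∃ γ : Γ, γ • y = v) : OB Γ y v = {w | ∃ γ : Γ, γ • y = w} := by
  obtain ⟨γ, rfl⟩ := h
  ext w
  constructor
  · rintro ⟨c, d, h1, h2, h3⟩
    have h4 := (h3 (c * γ)).2
    rw [mul_smul] at h4
    have h5 := h4.1 rfl
    exact ⟨c * γ, by rw [mul_smul]; exact le_antisymm h1 (h2.trans h5.ge)⟩
  · rintro ⟨δ, rfl⟩
    exact ⟨δ * γ⁻¹, δ * γ⁻¹, by rw [smul_smul, inv_mul_cancel_right],
      by rw [smul_smul, inv_mul_cancel_right], SL.refl _ _⟩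

/-- (7) -/
theorem OB_sub (hm : ∀ (γ : Γ) (x y : α), x < y → γ • x < γ • y) {y z x v : α}
    (hx : x ∈ OB Γ y z) (hv : v ∈ OB Γ y z) : OB Γ x v ⊆ OB Γ y z := by
  rintro w ⟨a, b, h1, h2, h3⟩
  have ha : a • v ∈ OB Γ y z := smul_mem_OB hm hv a
  have hb : b • v ∈ OB Γ y z := smul_mem_OB hm hv b
  have hab : a • v ≤ b • v := h1.trans h2
  refine OB_btw ha hb ?_ h1 h2
  have key : ∀ (γ f : Γ), γ • y = f • v → a • v = b • v := by
    intro γ f e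
    -- `f • v` is in the orbit of `y`
    have h4 : f • v ∈ OB Γ y z := smul_mem_OB hm hv f
    have h5 : OB Γ y z = {w | ∃ γ : Γ, γ • y = w} := by
      rw [← OB_eq hm h4]
      exact OB_orb ⟨γ, e⟩
    rw [h5] at hx
    obtain ⟨e', rfl⟩ := hx
    have h6 : (a * f⁻¹ * γ * e'⁻¹) • (e' • y) = a • v := by
      rw [mul_smul, inv_smul_smul, mul_smul, e, mul_smul, inv_smul_smul]
    have h7 := (h3 (a * f⁻¹ * γ * e'⁻¹)).2.1 h6
    rw [← h6, h7]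
  intro γ
  refine ⟨⟨fun h4 => lt_of_lt_of_le h4 hab, fun h4 => ?_⟩, fun h4 => ?_, fun h4 => ?_⟩
  · by_contra h5
    have h6 : a • v ∈ OB Γ y x := by rw [OB_eq hm hx]; exact ha
    obtain ⟨e, e', h7, h8, h9⟩ := h6
    have h10 : SL Γ y (a • v) (e' • x) := (h9.btw h7 h8).symm.trans h9
    have h11 : ¬ γ • y < e' • x := fun h => h5 ((h10 γ).1.2 h)
    have h12 : e' • x < b • v := lt_of_le_of_lt (not_lt.1 h11) h4
    exact absurd ((h3 e').1.2 h12) (not_lt.2 h8)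
  · rw [h4]; exact key γ a h4
  · rw [h4]; exact (key γ b h4).symm

/-- (8) -/
theorem OB_sub' (hm : ∀ (γ : Γ) (x y : α), x < y → γ • x < γ • y) {y z x : α}
    (hx : x ∉ OB Γ y z) : OB Γ y z ⊆ OB Γ x z := by
  rintro w ⟨a, b, h1, h2, h3⟩
  refine ⟨a, b, h1, h2, fun γ => ?_⟩
  have hz := mem_OB_self (Γ := Γ) y z
  have hc : γ • x ∉ OB Γ y z := fun h => hx ((smul_mem_OB_iff hm γ).1 h)
  have ha := smul_mem_OB hm hz a
  have hb := smul_mem_OB hm hz b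
  refine ⟨⟨fun h4 => lt_of_lt_of_le h4 (h1.trans h2), fun h4 => ?_⟩, fun h4 => ?_, fun h4 => ?_⟩
  · by_contra h5
    exact hc (OB_btw ha hb h3 (not_lt.1 h5) h4.le)
  · exact absurd (h4 ▸ ha) hc
  · exact absurd (h4 ▸ hb) hc

/-- (10) -/
theorem OB_inf (hm : ∀ (γ : Γ) (x y : α), x < y → γ • x < γ • y)
    (hu : ∀ x y : α, ∃ γ : Γ, y < γ • x) (u v : α) : (OB Γ u v).Infinite := by
  intro hf
  obtain ⟨m, hm1, hm2⟩ := hf.exists_maximal ⟨v, mem_OB_self u v⟩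
  obtain ⟨γ, hγ⟩ := hu m m
  exact absurd (hm2 (smul_mem_OB hm hm1 γ) hγ.le) (not_le.2 hγ)

/-- (12) -/
theorem OB_pt {u v x : α} (h : x ∈ OB Γ u v) : ∃ γ : Γ, SL Γ u x (γ • v) := by
  obtain ⟨c, d, h1, h2, h3⟩ := h
  exact ⟨c, (h3.btw h1 h2).symm⟩

/-- (13) -/
theorem lt_of_SL {y v w : α} (h : ¬ SL Γ y v w) : v < w ↔ ∃ γ : Γ, (¬ γ • y < v ∧ γ • y < w) ∨
    (¬ γ • y < v ∧ ¬ γ • y = v ∧ γ • y = w) := by
  constructor
  · intro h1
    by_contra h2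
    push Not at h2
    refine h fun γ => ⟨⟨fun h3 => h3.trans h1, fun h3 => ?_⟩, fun h3 => ?_, fun h3 => ?_⟩
    · by_contra h4
      exact absurd h3 (not_lt.2 ((h2 γ).1 (not_lt.1 h4)))
    · exact absurd (h3 ▸ h1) (not_lt.2 ((h2 γ).1 h3.ge))
    · by_contra h4
      exact (h2 γ).2 (by rw [h3]; exact h1.le) h4 h3
  · rintro ⟨γ, ⟨h1, h2⟩ | ⟨h1, h2, h3⟩⟩
    · exact lt_of_le_of_lt (not_lt.1 h1) h2
    · rw [← h3]
      exact lt_of_le_of_ne (not_lt.1 h1) (Ne.symm h2)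

end abs

open Classical in
/-- the linear order given by `R` -/
@[reducible] noncomputable def lo {Γ : Type} [Group Γ] {g : ℕ → Γ} {R : R2} {t : Γ → ℕ → ℕ}
    (h : LA g ⊤ R t) : LinearOrder ℕ where
  le x y := ¬ lt R y x
  lt x y := lt R x y
  le_refl x := h.irr x
  le_trans x y z h1 h2 := la_le h h1 h2
  lt_iff_le_not_ge x y := ⟨fun h1 => ⟨la_asymm h h1, fun h2 => h2 h1⟩, fun h1 => not_not.1 h1.2⟩
  le_antisymm x y h1 h2 := la_antisymm h h2 h1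
  le_total x y := by
    by_cases h1 : lt R y x
    · exact Or.inr (la_asymm h h1)
    · exact Or.inl h1
  toDecidableLE := fun _ _ => Classical.propDecidable _
  toDecidableEq := fun _ _ => Classical.propDecidable _
  toDecidableLT := fun _ _ => Classical.propDecidable _
  min x y := @ite ℕ (¬ lt R y x) (Classical.propDecidable _) x y
  max x y := @ite ℕ (¬ lt R y x) (Classical.propDecidable _) y x
  min_def _ _ := rfl
  max_def _ _ := rfl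
  compare x y := @ite Ordering (lt R x y) (Classical.propDecidable _) Ordering.lt
    (@ite Ordering (x = y) (Classical.propDecidable _) Ordering.eq Ordering.gt)
  compare_eq_compareOfLessAndEq _ _ := rfl

section tr

variable {Γ : Type} [Group Γ] {g : ℕ → Γ} {R : R2} {t : Γ → ℕ → ℕ}

/-- the action given by `R` -/
@[reducible] def ma (h : LA g ⊤ R t) : MulAction Γ ℕ where
  smul := t
  one_smul := h.one
  mul_smul a b x := la_mul h a b x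

theorem sl_SL (hg : Function.Surjective g) (h : LA g ⊤ R t) {y v w : ℕ} :
    sl R y v w ↔ @SL Γ ℕ _ (lo h) (ma h) y v w := sl_iff hg h

theorem Ob_OB (hg : Function.Surjective g) (h : LA g ⊤ R t) {u v : ℕ} :
    Ob R u v = @OB Γ ℕ _ (lo h) (ma h) u v := by
  ext x
  rw [mem_Ob hg h]
  constructor
  · rintro ⟨γ, δ, h1, h2, h3⟩
    exact ⟨γ, δ, h1, h2, (sl_SL hg h).1 h3⟩
  · rintro ⟨γ, δ, h1, h2, h3⟩
    exact ⟨γ, δ, h1, h2, (sl_SL hg h).2 h3⟩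

theorem orb_MA (hg : Function.Surjective g) (h : LA g ⊤ R t) {u v : ℕ} :
    orb R u v ↔ ∃ γ : Γ, (ma h).toSMul.smul γ u = v := orb_iff hg h

end tr

/-- GEO -/
theorem t_GEO : S_GEO := by
  intro Γ _ g hg R hMB
  obtain ⟨t, h, hunb⟩ := Pool.Agent.Y560.TG.MB.la hMB
  have hm : ∀ (γ : Γ) (x y : ℕ), lt R x y → lt R (t γ x) (t γ y) :=
    fun γ x y => h.mono γ (Subgroup.mem_top _) x y
  have H1 : ∀ u v, v ∈ Ob R u v := fun u v => by
    rw [Ob_OB hg h]; exact @mem_OB_self Γ ℕ _ (lo h) (ma h) u v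
  have H2 : ∀ u v x, x ∈ Ob R u v → Ob R u x = Ob R u v := fun u v x hx => by
    rw [Ob_OB hg h] at hx
    rw [Ob_OB hg h, Ob_OB hg h]
    exact @OB_eq Γ ℕ _ (lo h) (ma h) hm u v x hx
  have H3 : ∀ n u v x z, ac R n x z → (x ∈ Ob R u v ↔ z ∈ Ob R u v) := by
    intro n u v x z hxz
    rw [la_ac h] at hxz
    rw [Ob_OB hg h, ← hxz]
    exact (@smul_mem_OB_iff Γ ℕ _ (lo h) (ma h) hm u v x (g n)).symm
  have H5 : ∀ u v, ∀ x ∈ Ob R u v, ∀ x' ∈ Ob R u v, sl R u x x' → ∀ w ∉ Ob R u v,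
      (lt R x w ↔ lt R x' w) ∧ (lt R w x ↔ lt R w x') := by
    intro u v x hx x' hx' hs w hw
    rw [Ob_OB hg h] at hx hx' hw
    rw [sl_SL hg h] at hs
    exact @OB_out Γ ℕ _ (lo h) (ma h) u v x x' w hx hx' hs hw
  have H9 : ∀ y z, (y ∈ Ob R y z ↔ orb R y z) := by
    intro y z
    rw [Ob_OB hg h, orb_iff hg h]
    exact @mem_OB_iff Γ ℕ _ (lo h) (ma h) y z
  refine ⟨H1, H2, H3, ?_, H5, ?_, ?_, ?_, fun y z => ⟨H9 y z, fun v hv => ?_⟩, ?_, ?_, ?_, ?_⟩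
  · intro u v x w hx hw hs z h1 h2
    rw [Ob_OB hg h] at hx hw ⊢
    rw [sl_SL hg h] at hs
    exact @OB_btw Γ ℕ _ (lo h) (ma h) u v x w z hx hw hs h1 h2
  · intro u v huv
    refine ⟨fun n x z => H3 n u v x z, fun x hx x' hx' => ⟨fun hs => H5 u v x hx x' hx' hs,
      fun H => ?_⟩⟩
    have hu : ∀ γ, t γ u ∉ Ob R u v := by
      intro γ hγ
      obtain ⟨n, rfl⟩ := hg γ
      exact huv ((H9 u v).1 ((H3 n u v u _ ((la_ac h _ _ _).2 rfl)).2 hγ))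
    change sl R u x x'
    rw [sl_iff hg h]
    intro γ
    refine ⟨(H _ (hu γ)).2, fun e => ?_, fun e => ?_⟩
    · exact absurd (e ▸ hx) (hu γ)
    · exact absurd (e ▸ hx') (hu γ)
  · intro y z x v hx hv
    rw [Ob_OB hg h] at hx hv
    rw [Ob_OB hg h, Ob_OB hg h]
    exact @OB_sub Γ ℕ _ (lo h) (ma h) hm y z x v hx hv
  · intro y z x hx
    rw [Ob_OB hg h] at hx
    rw [Ob_OB hg h, Ob_OB hg h]
    exact @OB_sub' Γ ℕ _ (lo h) (ma h) hm y z x hx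
  · rw [orb_iff hg h] at hv
    rw [Ob_OB hg h]
    have := @OB_orb Γ ℕ _ (lo h) (ma h) y v hv
    rw [this]
    ext w
    exact (orb_iff hg h).symm
  · intro u v
    rw [Ob_OB hg h]
    exact @OB_inf Γ ℕ _ (lo h) (ma h) hm (fun x y => (hunb x y).1) u v
  · intro y x z n x' z' h1 h2
    rw [la_ac h] at h1 h2
    rw [← h1, ← h2, sl_SL hg h, sl_SL hg h]
    exact ⟨fun h3 => @SL.smul Γ ℕ _ (lo h) (ma h) hm y x z h3 (g n),
      fun h3 => @SL.of_smul Γ ℕ _ (lo h) (ma h) hm y x z (g n) h3⟩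
  · intro u v x hx
    rw [Ob_OB hg h] at hx
    obtain ⟨γ, hγ⟩ := @OB_pt Γ ℕ _ (lo h) (ma h) u v x hx
    obtain ⟨n, rfl⟩ := hg γ
    exact ⟨n, t (g n) v, (la_ac h _ _ _).2 rfl, (sl_SL hg h).2 hγ⟩
  · intro y v w hs
    rw [sl_SL hg h] at hs
    have h1 := @lt_of_SL Γ ℕ _ (lo h) (ma h) y v w hs
    refine Iff.trans h1 ⟨?_, ?_⟩
    · rintro ⟨γ, h2⟩
      obtain ⟨n, rfl⟩ := hg γ
      refine ⟨n, ?_⟩
      rw [Q_even_iff h, Q_even_iff h, Q_odd_iff h, Q_odd_iff h]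
      exact h2
    · rintro ⟨n, h2⟩
      rw [Q_even_iff h, Q_even_iff h, Q_odd_iff h, Q_odd_iff h] at h2
      exact ⟨g n, h2⟩

end Pool.Agent.Y406.TG
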